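import Pool.Agent.W2helper81.BY.Stm

/-! Piece LOC of project BY (helper81): finite étale homomorphisms stay so after a further localisation. -/

set_option autoImplicit false

namespace Pool.Agent.W2helper69.BY

open Pool.Agent.W2helper81.BY

/-- the divisors of the powers of `a` -/
def sat {A : Type} [CommRing A] (a : A) : Submonoid A where
  carrier := {x | ∃ (n : ℕ) (y : A), y * x = a ^ n}
  one_mem' := ⟨0, 1, by simp⟩
  mul_mem' := by
    rintro x y ⟨m, u, hu⟩ ⟨n, v, hv⟩
    exact ⟨m + n, u * v, by rw [pow_add, ← hu, ← hv]; ring⟩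

lemma powers_le_sat {A : Type} [CommRing A] (a : A) : Submonoid.powers a ≤ sat a := by
  rintro _ ⟨n, rfl⟩
  exact ⟨n, 1, by simp⟩

lemma isLoc_sat {A : Type} [CommRing A] (a : A) : IsLocalization (sat a) (Localization.Away a) :=
  IsLocalization.isLocalization_of_is_exists_mul_mem _ (Submonoid.powers a) _ (powers_le_sat a) (by
    rintro ⟨x, n, y, h⟩
    exact ⟨y, n, h.symm⟩)

lemma isLoc_map {A B : Type} [CommRing A] [CommRing B] (ψ : A →+* B) (a : A) :
    IsLocalization ((sat a).map ψ) (Localization.Away (ψ a)) :=
  IsLocalization.isLocalization_of_is_exists_mul_mem _ (Submonoid.powers (ψ a)) _ (by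
    rintro _ ⟨n, rfl⟩
    exact ⟨a ^ n, powers_le_sat a ⟨n, rfl⟩, map_pow ψ a n⟩) (by
    rintro ⟨_, x, ⟨n, y, h⟩, rfl⟩
    exact ⟨ψ y, n, by rw [← map_mul, h, map_pow]⟩)

/-- LOC -/
theorem LOC_ok : P_LOC := by
  intro A B _ _ ψ f a n ⟨c, hc⟩ h
  have hfa : f ∈ sat a := ⟨n, c, by rw [hc]; ring⟩
  have hA : IsUnit (algebraMap A (Localization.Away a) f) :=
    @IsLocalization.map_units A _ (sat a) (Localization.Away a) _ _ (isLoc_sat a) ⟨f, hfa⟩
  have hB : IsUnit (algebraMap B (Localization.Away (ψ a)) (ψ f)) :=
    @IsLocalization.map_units B _ ((sat a).map ψ) (Localization.Away (ψ a)) _ _ (isLoc_map ψ a)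
      ⟨ψ f, f, hfa, rfl⟩
  let algA : Algebra (Localization.Away f) (Localization.Away a) :=
    (IsLocalization.Away.lift f hA).toAlgebra
  have towA : IsScalarTower A (Localization.Away f) (Localization.Away a) :=
    IsScalarTower.of_algebraMap_eq (fun x => (IsLocalization.Away.lift_eq f hA x).symm)
  let algB : Algebra (Localization.Away (ψ f)) (Localization.Away (ψ a)) :=
    (IsLocalization.Away.lift (ψ f) hB).toAlgebra
  have towB : IsScalarTower B (Localization.Away (ψ f)) (Localization.Away (ψ a)) :=
    IsScalarTower.of_algebraMap_eq (fun x => (IsLocalization.Away.lift_eq (ψ f) hB x).symm)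
  have := isLoc_sat a
  have := isLoc_map ψ a
  have lA : IsLocalization ((sat a).map (algebraMap A (Localization.Away f)))
      (Localization.Away a) :=
    IsLocalization.isLocalization_of_submonoid_le (Localization.Away f) (Localization.Away a)
      (Submonoid.powers f) (sat a) (by
        rintro _ ⟨k, rfl⟩
        exact pow_mem hfa k)
  have lB : IsLocalization (((sat a).map ψ).map (algebraMap B (Localization.Away (ψ f))))
      (Localization.Away (ψ a)) :=
    IsLocalization.isLocalization_of_submonoid_le (Localization.Away (ψ f))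
      (Localization.Away (ψ a)) (Submonoid.powers (ψ f)) ((sat a).map ψ) (by
        rintro _ ⟨k, rfl⟩
        exact pow_mem (Submonoid.mem_map_of_mem ψ hfa) k)
  have hcomm : ∀ x : A, Localization.awayMap ψ f (algebraMap A (Localization.Away f) x) =
      algebraMap B (Localization.Away (ψ f)) (ψ x) := fun x => by
    simp [Localization.awayMap, IsLocalization.Away.map]
  have hcomm' : ∀ x : A, Localization.awayMap ψ a (algebraMap A (Localization.Away a) x) =
      algebraMap B (Localization.Away (ψ a)) (ψ x) := fun x => by
    simp [Localization.awayMap, IsLocalization.Away.map]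
  have e1 : ((sat a).map (algebraMap A (Localization.Away f))).map (Localization.awayMap ψ f) =
      ((sat a).map ψ).map (algebraMap B (Localization.Away (ψ f))) := by
    ext y
    constructor
    · rintro ⟨_, ⟨x, hx, rfl⟩, rfl⟩
      exact ⟨ψ x, ⟨x, hx, rfl⟩, (hcomm x).symm⟩
    · rintro ⟨_, ⟨x, hx, rfl⟩, rfl⟩
      exact ⟨algebraMap A (Localization.Away f) x, ⟨x, hx, rfl⟩, hcomm x⟩
  have lC : IsLocalization (((sat a).map (algebraMap A (Localization.Away f))).map
      (Localization.awayMap ψ f)) (Localization.Away (ψ a)) := by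
    rw [e1]
    exact lB
  have e2 : (IsLocalization.map (Localization.Away (ψ a)) (Localization.awayMap ψ f)
      (Submonoid.le_comap_map ((sat a).map (algebraMap A (Localization.Away f)))) :
        Localization.Away a →+* Localization.Away (ψ a)) = Localization.awayMap ψ a := by
    apply IsLocalization.ringHom_ext (sat a)
    ext x
    rw [RingHom.comp_apply, RingHom.comp_apply, hcomm',
      IsScalarTower.algebraMap_apply A (Localization.Away f) (Localization.Away a),
      IsLocalization.map_eq, hcomm,
      ← IsScalarTower.algebraMap_apply B (Localization.Away (ψ f)) (Localization.Away (ψ a))]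
  constructor
  · rw [← e2]
    exact RingHom.finite_localizationPreserves _ _ _ _ h.1
  · rw [← e2]
    exact RingHom.Etale.isStableUnderBaseChange.localizationPreserves _ _ _ _ h.2

end Pool.Agent.W2helper69.BY
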